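import Pool.Agent.H.MP_874a88_al.Basic

namespace Pool.Agent.Results.MP_874a88_al.NotPerfect
open Pool.Agent.H.MP_874a88_al

theorem result : ∃ (R A : Type) (_ : Ring R) (_ : Ring A) (f : R →+* A),
    Function.Surjective f ∧
    (∃ s : Finset A, ∀ a : A, ∃ r : A → R, a = ∑ b ∈ s, b * f (r b)) ∧
    ∃ C : ModuleCat.{0} A,
      Cotorsion R ((ModuleCat.restrictScalars f).obj C) ∧ ¬ Cotorsion A C := by
  have hs : Function.Surjective (ff (ZMod 2) (List Bool)).toRingHom :=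
    fun a => ⟨FreeAlgebra.ι _ a, by simp [ff]⟩
  refine ⟨_, _, _, _, (ff (ZMod 2) (List Bool)).toRingHom, hs, ⟨{1}, fun a => ?_⟩, _,
    cot_R _, not_cot⟩
  obtain ⟨r, rfl⟩ := hs a
  exact ⟨fun _ => r, by simp⟩

end Pool.Agent.Results.MP_874a88_al.NotPerfect
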